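import Pool.Agent.Helper92.BO.GoalsF
import Pool.Agent.Helper38.FR.PTF

/-!
# Project BO, packet PTT
-/

namespace Pool.Agent.Helper17.BO

open Pool.Agent.Helper81.CC Pool.Agent.Bin Pool.Agent.Helper92.VP Pool.Agent.Helper92.FR
open Pool.Agent.Helper92.BO

variable {α : Type} [ToData α]

theorem pt_sgn {S T : α → List ℕ} (hS : PolyTime S) (hT : PolyTime T) :
    PolyTime (fun a => sgn (S a) (T a)) := by
  unfold sgn
  fun_prop

theorem pt_yv {tab : α → List (List ℕ × BN)} {T : α → List ℕ} {i : α → ℕ}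
    (ht : PolyTime tab) (hT : PolyTime T) (hi : PolyTime i) :
    PolyTime (fun a => yv (tab a) (T a) (i a)) := by
  unfold yv
  fun_prop

theorem pt_yQ {Q : α → BN} {tab : α → List (List ℕ × BN)} {T : α → List ℕ} {m : α → ℕ}
    (hQ : PolyTime Q) (ht : PolyTime tab) (hT : PolyTime T) (hm : PolyTime m) :
    PolyTime (fun a => yQ (Q a) (tab a) (T a) (m a)) := by
  unfold yQ
  refine PolyTime.list_map (l := fun a => List.range (m a + 1))
    (f := fun a i => Qn.mul (Qn.ofBN (yv (tab a) (T a) i)) (Qn.inv (Qn.ofBN (Q a))))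
    (by fun_prop) ?_
  have h1 : PolyTime (fun z : α × ℕ => yv (tab z.1) (T z.1) z.2) :=
    pt_yv (tab := fun z : α × ℕ => tab z.1) (T := fun z => T z.1) (i := fun z => z.2)
      (by fun_prop) (by fun_prop) (by fun_prop)
  fun_prop

theorem ptt (hc : Pool.Agent.Helper92.BO.PtcStmt) (hl : Pool.Agent.Helper92.BO.PtlStmt)
    (hns : Pool.Agent.Helper92.BO.PtnStmt) : Pool.Agent.Helper92.BO.PttStmt := by
  intro α _ E n m N Q ws S hE hn hm hN hQ hws hS hle hpow
  unfold terms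
  refine PolyTime.list_map (l := fun a => subL (S a))
    (f := fun a T => Qn.mul (sgn (S a) T) (lval (Q a) (ws a) (m a) (ctab (E a) (n a) (Q a) (S a)) T))
    (hl α S m N hS hm hN hle hpow) ?_
  have h1 : PolyTime (fun z : α × List ℕ => sgn (S z.1) z.2) :=
    pt_sgn (S := fun z : α × List ℕ => S z.1) (T := fun z => z.2) (by fun_prop) (by fun_prop)
  have h2 : PolyTime (fun a => ctab (E a) (n a) (Q a) (S a)) :=
    hc α E n m N Q S hE hn hm hN hQ hS hle hpow
  have h3 : PolyTime (fun z : α × List ℕ =>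
      yQ (Q z.1) (ctab (E z.1) (n z.1) (Q z.1) (S z.1)) z.2 (m z.1)) :=
    pt_yQ (Q := fun z : α × List ℕ => Q z.1)
      (tab := fun z => ctab (E z.1) (n z.1) (Q z.1) (S z.1)) (T := fun z => z.2)
      (m := fun z => m z.1) (by fun_prop)
      (PolyTime.comp (g := fun a => ctab (E a) (n a) (Q a) (S a))
        (f := fun z : α × List ℕ => z.1) h2 (by fun_prop)) (by fun_prop) (by fun_prop)
  have h4 : PolyTime (fun z : α × List ℕ =>
      nsQ (yQ (Q z.1) (ctab (E z.1) (n z.1) (Q z.1) (S z.1)) z.2 (m z.1)) (m z.1)) :=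
    hns (α × List ℕ) (fun z => yQ (Q z.1) (ctab (E z.1) (n z.1) (Q z.1) (S z.1)) z.2 (m z.1))
      (fun z => m z.1) (fun z => N z.1) h3 (by fun_prop) (by fun_prop) (fun z => hpow z.1)
  have h5 : PolyTime (fun z : α × List ℕ =>
      lval (Q z.1) (ws z.1) (m z.1) (ctab (E z.1) (n z.1) (Q z.1) (S z.1)) z.2) := by
    unfold lval
    refine PT_qsum (PolyTime.list_map (l := fun z : α × List ℕ => List.range (m z.1))
      (f := fun z i => Qn.mul ((ws z.1).getD i Qn.zero)
        ((nsQ (yQ (Q z.1) (ctab (E z.1) (n z.1) (Q z.1) (S z.1)) z.2 (m z.1)) (m z.1)).getD i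
          Qn.zero)) (by fun_prop) ?_)
    have h6 : PolyTime (fun w : (α × List ℕ) × ℕ =>
        nsQ (yQ (Q w.1.1) (ctab (E w.1.1) (n w.1.1) (Q w.1.1) (S w.1.1)) w.1.2 (m w.1.1))
          (m w.1.1)) :=
      PolyTime.comp (g := fun z : α × List ℕ =>
        nsQ (yQ (Q z.1) (ctab (E z.1) (n z.1) (Q z.1) (S z.1)) z.2 (m z.1)) (m z.1))
        (f := fun w : (α × List ℕ) × ℕ => w.1) h4 (by fun_prop)
    fun_prop
  fun_prop

end Pool.Agent.Helper17.BO
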