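import Pool.Agent.Helper92.BO.GoalsA

/-!
# Project BO, packet SRA
-/

namespace Pool.Agent.Helper17.BO

open MeasureTheory Set intervalIntegral Pool.Agent.Helper92.BO

/-- Chebyshev's inequality for the identity and an antitone function. -/
theorem cheb {W : ℝ → ℝ} {a : ℝ} (ha : 0 < a) (ha1 : a ≤ 1)
    (hc : ContinuousOn W (Icc 0 1))
    (hanti : ∀ x' x, 0 ≤ x' → x' ≤ x → x ≤ 1 → W x ≤ W x') :
    ∫ x in (0 : ℝ)..a, x * W x ≤ a / 2 * ∫ x in (0 : ℝ)..a, W x := by
  have hca : ContinuousOn W (uIcc 0 a) := by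
    rw [uIcc_of_le ha.le]
    exact hc.mono (Icc_subset_Icc_right ha1)
  have hi1 : IntervalIntegrable W volume 0 a := hca.intervalIntegrable
  have hi2 : IntervalIntegrable (fun x => x * W x) volume 0 a :=
    (continuousOn_id.mul hca).intervalIntegrable
  have hi3 : IntervalIntegrable (fun x => a / 2 * W x) volume 0 a := hi1.const_mul _
  have hi4 : IntervalIntegrable (fun x : ℝ => (x - a / 2) * W (a / 2)) volume 0 a := by
    apply Continuous.intervalIntegrable
    fun_prop
  have h0 : ∫ x in (0 : ℝ)..a, (x - a / 2) * W (a / 2) = 0 := by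
    rw [intervalIntegral.integral_mul_const, intervalIntegral.integral_sub
      (by apply Continuous.intervalIntegrable; fun_prop)
      (by apply Continuous.intervalIntegrable; fun_prop), integral_id,
      intervalIntegral.integral_const]
    simp only [smul_eq_mul]
    ring
  have hle : ∫ x in (0 : ℝ)..a, (x * W x - a / 2 * W x) ≤
      ∫ x in (0 : ℝ)..a, (x - a / 2) * W (a / 2) := by
    apply intervalIntegral.integral_mono_on ha.le (hi2.sub hi3) hi4
    intro x hx
    rcases le_total x (a / 2) with h | h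
    · have h1 := hanti x (a / 2) hx.1 h (by linarith)
      nlinarith
    · have h1 := hanti (a / 2) x (by linarith) h (by linarith [hx.2])
      nlinarith
  rw [intervalIntegral.integral_sub hi2 hi3, intervalIntegral.integral_const_mul, h0] at hle
  linarith

theorem psiR_one {l x : ℝ} (hx : x ≤ 1 / 2) : psiR l x = 1 := by
  unfold psiR
  rw [if_pos hx]

theorem rho_eq {l : ℝ} {W : ℝ → ℝ} {x : ℝ} (hx : x ≤ 1 / 2) : rho l W x = W x := by
  unfold rho
  rw [psiR_one hx, one_mul]

theorem Zf_eq {l : ℝ} {W : ℝ → ℝ} {y : ℝ} (h0 : 0 ≤ y) (hy : y ≤ 1 / 2) :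
    Zf l W y = ∫ x in (0 : ℝ)..y, W x := by
  unfold Zf
  apply intervalIntegral.integral_congr
  intro x hx
  rw [uIcc_of_le h0] at hx
  exact rho_eq (hx.2.trans hy)

theorem sra : SraStmt := by
  intro d l W hl hl1 hW y' y hy' hyy hy
  obtain ⟨hc, hpos, hanti, hrat⟩ := hW
  have hy0 : 0 < y := hy'.trans hyy
  have hy'2 : y' < 1 / 2 := hyy.trans hy
  -- integrability
  have hcI : ∀ a b : ℝ, 0 ≤ a → a ≤ b → b ≤ 1 → IntervalIntegrable W volume a b := by
    intro a b ha hab hb
    apply ContinuousOn.intervalIntegrable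
    rw [uIcc_of_le hab]
    exact hc.mono (Icc_subset_Icc ha hb)
  set Z := ∫ x in (0 : ℝ)..y, W x with hZ
  set Z' := ∫ x in (0 : ℝ)..y', W x with hZ'
  have hZe : Zf l W y = Z := Zf_eq hy0.le hy.le
  have hZe' : Zf l W y' = Z' := Zf_eq hy'.le hy'2.le
  have hWy : 0 < W y := hpos y hy0.le (by linarith)
  have hWy' : 0 < W y' := hpos y' hy'.le (by linarith)
  -- lower bounds for the integrals
  have hlow : ∀ a : ℝ, 0 < a → a ≤ 1 → a * W a ≤ ∫ x in (0 : ℝ)..a, W x := by
    intro a ha ha1
    have h1 : ∫ x in (0 : ℝ)..a, W a ≤ ∫ x in (0 : ℝ)..a, W x := by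
      apply intervalIntegral.integral_mono_on ha.le (by simp) (hcI 0 a le_rfl ha.le ha1)
      intro x hx
      exact hanti x a hx.1 hx.2 ha1
    rw [intervalIntegral.integral_const, smul_eq_mul, sub_zero] at h1
    exact h1
  have hZpos : 0 < Z := lt_of_lt_of_le (mul_pos hy0 hWy) (hlow y hy0 (by linarith))
  have hZ'pos : 0 < Z' := lt_of_lt_of_le (mul_pos hy' hWy') (hlow y' hy' (by linarith))
  have hZup : Z ≤ y * W 0 := by
    have h1 : ∫ x in (0 : ℝ)..y, W x ≤ ∫ x in (0 : ℝ)..y, W 0 := by
      apply intervalIntegral.integral_mono_on hy0.le (hcI 0 y le_rfl hy0.le (by linarith)) (by simp)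
      intro x hx
      exact hanti 0 x le_rfl hx.1 (by linarith [hx.2])
    rw [intervalIntegral.integral_const, smul_eq_mul, sub_zero] at h1
    exact h1
  -- Z y' ≤ Z' y
  have hsplit : Z = Z' + ∫ x in y'..y, W x := by
    rw [hZ, hZ', intervalIntegral.integral_add_adjacent_intervals (hcI 0 y' le_rfl hy'.le
      (by linarith)) (hcI y' y hy'.le hyy.le (by linarith))]
  have htail : ∫ x in y'..y, W x ≤ (y - y') * W y' := by
    have h1 : ∫ x in y'..y, W x ≤ ∫ x in y'..y, W y' := by
      apply intervalIntegral.integral_mono_on hyy.le (hcI y' y hy'.le hyy.le (by linarith))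
        (by simp)
      intro x hx
      exact hanti y' x hy'.le hx.1 (by linarith [hx.2])
    rw [intervalIntegral.integral_const, smul_eq_mul] at h1
    exact h1
  have hratio : Z * y' ≤ Z' * y := by
    have h1 := hlow y' hy' (by linarith)
    rw [← hZ'] at h1
    have h2 : (y - y') * (y' * W y') ≤ (y - y') * Z' :=
      mul_le_mul_of_nonneg_left h1 (by linarith)
    nlinarith
  -- theta
  set θ := (1 - y) / (1 - y') with hθ
  have h1y' : 0 < 1 - y' := by linarith
  have hθ0 : 0 ≤ θ := div_nonneg (by linarith) h1y'.le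
  have hθ1 : θ ≤ 1 := by
    rw [hθ, div_le_one h1y']
    linarith
  have hθe : (1 - y') * θ = 1 - y := by
    rw [hθ]
    field_simp
  have hWθ : W y' * θ ^ d ≤ W y := by
    have h1 := hrat y' y hy'.le hyy.le (by linarith)
    have h2 : (1 - y) ^ d = (1 - y') ^ d * θ ^ d := by
      rw [← hθe, mul_pow]
    rw [h2] at h1
    have h3 : 0 < (1 - y') ^ d := by positivity
    have h4 : (W y' * θ ^ d) * (1 - y') ^ d ≤ W y * (1 - y') ^ d := by linarith
    exact le_of_mul_le_mul_right h4 h3
  -- the bound of Mf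
  have hm1 : y' * W y' / Z' ≤ 1 := by
    rw [div_le_one hZ'pos]
    exact hlow y' hy' (by linarith)
  have hm0 : 0 ≤ y' * W y' / Z' := by positivity
  have hm2 : y' * W y' / Z' * θ ^ d ≤ y * W y / Z := by
    rw [div_mul_eq_mul_div, div_le_div_iff₀ hZ'pos hZpos]
    have h1 : y' * (W y' * θ ^ d) * Z ≤ y' * W y * Z := by
      apply mul_le_mul_of_nonneg_right _ hZpos.le
      exact mul_le_mul_of_nonneg_left hWθ hy'.le
    have h2 : W y * (Z * y') ≤ W y * (Z' * y) := mul_le_mul_of_nonneg_left hratio hWy.le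
    nlinarith
  have hMf : Mf l W y' y ≤ (d + 1) * (y - y') := by
    unfold Mf
    rw [hZe, hZe', rho_eq hy.le, rho_eq hy'2.le]
    have e1 : y' * (1 - y') * W y' / Z' = y' * W y' / Z' * (1 - y') := by ring
    have e2 : y * (1 - y) * W y / Z = y * W y / Z * (1 - y) := by ring
    rw [e1, e2]
    have h1 : y' * W y' / Z' * θ ^ d * (1 - y) ≤ y * W y / Z * (1 - y) :=
      mul_le_mul_of_nonneg_right hm2 (by linarith)
    have h2 : 1 + ((d + 1 : ℕ) : ℝ) * (θ - 1) ≤ (1 + (θ - 1)) ^ (d + 1) :=
      one_add_mul_le_pow (by linarith) (d + 1)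
    have h3 : (1 : ℝ) + (θ - 1) = θ := by ring
    rw [h3] at h2
    push_cast at h2
    have h4 : 0 ≤ 1 - θ ^ (d + 1) := by
      have := pow_le_one₀ (n := d + 1) hθ0 hθ1
      linarith
    have h5 : y' * W y' / Z' * (1 - y') - y' * W y' / Z' * θ ^ d * (1 - y) =
        y' * W y' / Z' * ((1 - y') * (1 - θ ^ (d + 1))) := by
      rw [← hθe]
      ring
    have h6 : y' * W y' / Z' * ((1 - y') * (1 - θ ^ (d + 1))) ≤
        1 * ((1 - y') * (1 - θ ^ (d + 1))) :=
      mul_le_mul_of_nonneg_right hm1 (mul_nonneg h1y'.le h4)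
    have h7 : (1 - y') * (1 - θ ^ (d + 1)) ≤ (1 - y') * ((d + 1) * (1 - θ)) := by
      apply mul_le_mul_of_nonneg_left _ h1y'.le
      linarith
    have h8 : (1 - y') * ((d + 1) * (1 - θ)) = (d + 1) * (y - y') := by
      have : (1 - y') * (1 - θ) = y - y' := by
        rw [mul_sub, mul_one, hθe]
        ring
      calc (1 - y') * ((d + 1) * (1 - θ)) = (d + 1) * ((1 - y') * (1 - θ)) := by ring
        _ = (d + 1) * (y - y') := by rw [this]
    linarith
  -- the lower bound of Sf
  have hinner : ∀ x ∈ Icc y' y, W y * (2 * x - y') * Z' ≤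
      ∫ x' in (0 : ℝ)..y', rho l W x * rho l W x' * (2 * (x - x')) := by
    intro x hx
    have e1 : ∫ x' in (0 : ℝ)..y', rho l W x * rho l W x' * (2 * (x - x')) =
        ∫ x' in (0 : ℝ)..y', (2 * x * W x) * W x' - (2 * W x) * (x' * W x') := by
      apply intervalIntegral.integral_congr
      intro t ht
      rw [uIcc_of_le hy'.le] at ht
      simp only
      rw [rho_eq (hx.2.trans hy.le), rho_eq (ht.2.trans hy'2.le)]
      ring
    have hi1 := hcI 0 y' le_rfl hy'.le (by linarith)
    have hi2 : IntervalIntegrable (fun x => x * W x) volume 0 y' := by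
      apply ContinuousOn.intervalIntegrable
      rw [uIcc_of_le hy'.le]
      exact continuousOn_id.mul (hc.mono (Icc_subset_Icc_right (by linarith)))
    rw [e1, intervalIntegral.integral_sub (hi1.const_mul _) (hi2.const_mul _),
      intervalIntegral.integral_const_mul, intervalIntegral.integral_const_mul, ← hZ']
    have h1 := cheb hy' (by linarith) hc hanti
    rw [← hZ'] at h1
    have hWx : W y ≤ W x := hanti x y (by linarith [hx.1]) hx.2 (by linarith)
    have hWx0 : 0 ≤ W x := hWy.le.trans hWx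
    have h2 : (2 * W x) * ∫ x' in (0 : ℝ)..y', x' * W x' ≤ (2 * W x) * (y' / 2 * Z') :=
      mul_le_mul_of_nonneg_left h1 (by linarith)
    have h3 : W y * ((2 * x - y') * Z') ≤ W x * ((2 * x - y') * Z') :=
      mul_le_mul_of_nonneg_right hWx (mul_nonneg (by linarith [hx.1]) hZ'pos.le)
    nlinarith
  have hSf : Z' * W y * ((y - y') * y) ≤ Sf l W y' y := by
    unfold Sf
    rw [if_neg (by linarith), if_neg (by linarith)]
    have e0 : (1 - l) / 4 * W (1 / 2) * ((0 : ℝ) - 0) = 0 := by ring
    rw [e0, add_zero]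
    have e2 : ∫ x in y'..y, W y * (2 * x - y') * Z' = Z' * W y * ((y - y') * y) := by
      have : (fun x : ℝ => W y * (2 * x - y') * Z') = fun x => (W y * Z') * (2 * x - y') := by
        funext x
        ring
      rw [this, intervalIntegral.integral_const_mul, intervalIntegral.integral_sub
        (by apply Continuous.intervalIntegrable; fun_prop)
        (by apply Continuous.intervalIntegrable; fun_prop), intervalIntegral.integral_const_mul,
        integral_id, intervalIntegral.integral_const, smul_eq_mul]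
      ring
    rw [← e2]
    apply intervalIntegral.integral_mono_on hyy.le
      (by apply Continuous.intervalIntegrable; fun_prop) _ hinner
    -- integrability of the inner integral
    have hi1 := hcI 0 y' le_rfl hy'.le (by linarith)
    have hi2 : IntervalIntegrable (fun x => x * W x) volume 0 y' := by
      apply ContinuousOn.intervalIntegrable
      rw [uIcc_of_le hy'.le]
      exact continuousOn_id.mul (hc.mono (Icc_subset_Icc_right (by linarith)))
    have e3 : EqOn (fun x => (2 * x * W x) * Z' - (2 * W x) * ∫ x' in (0 : ℝ)..y', x' * W x')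
        (fun x => ∫ x' in (0 : ℝ)..y', rho l W x * rho l W x' * (2 * (x - x')))
        (uIcc y' y) := by
      intro x hx
      rw [uIcc_of_le hyy.le] at hx
      have e1 : ∫ x' in (0 : ℝ)..y', rho l W x * rho l W x' * (2 * (x - x')) =
          ∫ x' in (0 : ℝ)..y', (2 * x * W x) * W x' - (2 * W x) * (x' * W x') := by
        apply intervalIntegral.integral_congr
        intro t ht
        rw [uIcc_of_le hy'.le] at ht
        simp only
        rw [rho_eq (hx.2.trans hy.le), rho_eq (ht.2.trans hy'2.le)]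
        ring
      simp only
      rw [e1, intervalIntegral.integral_sub (hi1.const_mul _) (hi2.const_mul _),
        intervalIntegral.integral_const_mul, intervalIntegral.integral_const_mul, ← hZ']
    have hcont : ContinuousOn (fun x => (2 * x * W x) * Z' -
        (2 * W x) * ∫ x' in (0 : ℝ)..y', x' * W x') (uIcc y' y) := by
      rw [uIcc_of_le hyy.le]
      have hcW : ContinuousOn W (Icc y' y) := hc.mono (Icc_subset_Icc hy'.le (by linarith))
      fun_prop
    exact (hcont.congr fun x hx => (e3 hx).symm).intervalIntegrable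
  -- Z against W y
  have hW0 : W 0 ≤ 2 ^ d * W y := by
    have h1 := hrat 0 (1 / 2) le_rfl (by norm_num) (by norm_num)
    have h2 := hanti y (1 / 2) hy0.le hy.le (by norm_num)
    have h3 : W 0 * (1 / 2) ^ d ≤ W y := by
      have : W 0 * (1 - 1 / 2) ^ d ≤ W (1 / 2) := by simpa using h1
      have e : (1 - 1 / 2 : ℝ) = 1 / 2 := by norm_num
      rw [e] at this
      linarith
    have h4 : (2 : ℝ) ^ d * (1 / 2) ^ d = 1 := by
      rw [← mul_pow]
      norm_num
    calc W 0 = 2 ^ d * (W 0 * (1 / 2) ^ d) := by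
            rw [mul_left_comm, h4, mul_one]
      _ ≤ 2 ^ d * W y := mul_le_mul_of_nonneg_left h3 (by positivity)
  have hZy : Z * (1 / 2) ^ d ≤ y * W y := by
    have h1 : Z ≤ y * (2 ^ d * W y) := hZup.trans (mul_le_mul_of_nonneg_left hW0 hy0.le)
    have h4 : (2 : ℝ) ^ d * (1 / 2) ^ d = 1 := by
      rw [← mul_pow]
      norm_num
    calc Z * (1 / 2) ^ d ≤ y * (2 ^ d * W y) * (1 / 2) ^ d :=
          mul_le_mul_of_nonneg_right h1 (by positivity)
      _ = y * W y * (2 ^ d * (1 / 2) ^ d) := by ring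
      _ = y * W y := by rw [h4, mul_one]
  -- conclusion
  have hfin1 : (y - y') * (Z' * (Z * (1 / 2) ^ d)) ≤ Sf l W y' y := by
    refine le_trans ?_ hSf
    have h1 : (y - y') * (Z' * (Z * (1 / 2) ^ d)) ≤ (y - y') * (Z' * (y * W y)) :=
      mul_le_mul_of_nonneg_left (mul_le_mul_of_nonneg_left hZy hZ'pos.le) (by linarith)
    linarith
  refine le_trans ?_ hfin1
  rw [hZe, hZe']
  have hk : 0 ≤ l * (1 / 4) ^ d / (8 * (d + 1)) := by positivity
  have h1 : l * (1 / 4) ^ d / (8 * (d + 1)) * Mf l W y' y ≤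
      l * (1 / 4) ^ d / (8 * (d + 1)) * ((d + 1) * (y - y')) :=
    mul_le_mul_of_nonneg_left hMf hk
  have e1 : l * (1 / 4) ^ d / (8 * (d + 1)) * ((d + 1) * (y - y')) =
      l / 8 * (1 / 4) ^ d * (y - y') := by
    have : (d : ℝ) + 1 ≠ 0 := by positivity
    field_simp
  have h2 : l / 8 * (1 / 4 : ℝ) ^ d ≤ (1 / 2) ^ d := by
    have h3 : (1 / 4 : ℝ) ^ d ≤ (1 / 2) ^ d := by
      apply pow_le_pow_left₀ <;> norm_num
    have h4 : l / 8 ≤ 1 := by linarith
    calc l / 8 * (1 / 4 : ℝ) ^ d ≤ 1 * (1 / 4) ^ d :=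
          mul_le_mul_of_nonneg_right h4 (by positivity)
      _ ≤ (1 / 2) ^ d := by rw [one_mul]; exact h3
  calc l * (1 / 4) ^ d / (8 * (d + 1)) * Mf l W y' y * (Z' * Z)
      ≤ l / 8 * (1 / 4) ^ d * (y - y') * (Z' * Z) := by
        rw [← e1]
        exact mul_le_mul_of_nonneg_right h1 (by positivity)
    _ = (l / 8 * (1 / 4) ^ d) * ((y - y') * (Z' * Z)) := by ring
    _ ≤ (1 / 2) ^ d * ((y - y') * (Z' * Z)) := by
        apply mul_le_mul_of_nonneg_right h2
        have : 0 ≤ y - y' := by linarith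
        positivity
    _ = (y - y') * (Z' * (Z * (1 / 2) ^ d)) := by ring

end Pool.Agent.Helper17.BO
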